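import Pool.Agent.H242.GX.Stm

/-!
# GX-CORR1: the cohomological equation in logarithmic coordinates
-/

set_option autoImplicit false

open Set Filter Topology
open scoped ContDiff

namespace Pool.Agent.H725.GX

open Pool.Agent.H242.GX

/-- smooth step: `0` for `θ ≤ -1`, `1` for `θ ≥ -1/2` -/
noncomputable def st (θ : ℝ) : ℝ := Real.smoothTransition (2 * θ + 2)

theorem st_smooth : ContDiff ℝ ∞ st := by
  unfold st
  exact Real.smoothTransition.contDiff.comp (by fun_prop)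

theorem st_zero (θ : ℝ) (h : θ ≤ -1) : st θ = 0 :=
  Real.smoothTransition.zero_of_nonpos (by linarith)

theorem st_one (θ : ℝ) (h : -(1 / 2) ≤ θ) : st θ = 1 :=
  Real.smoothTransition.one_of_one_le (by linarith)

/-- the bounds of the derivatives of the step in the first variable -/
theorem st_bound (a b : ℝ) (i : ℕ) : ∃ C : ℝ, 0 ≤ C ∧ ∀ x : ℝ × ℝ, x.1 ≤ b →
    ‖iteratedFDeriv ℝ i (fun x : ℝ × ℝ => a * st x.1) x‖ ≤ C := by
  obtain ⟨u, hu⟩ : ∃ u : ℝ × ℝ → ℝ, u = fun x : ℝ × ℝ => a * st x.1 := ⟨_, rfl⟩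
  have hus : ContDiff ℝ ∞ u := by
    rw [hu]
    exact contDiff_const.mul (st_smooth.comp contDiff_fst)
  rw [← hu]
  have hc : Continuous (fun s : ℝ => ‖iteratedFDeriv ℝ i u (s, 0)‖) :=
    ((hus.continuous_iteratedFDeriv (m := i) (by exact_mod_cast le_top)).comp
      (by fun_prop)).norm
  obtain ⟨C, hC⟩ := (isCompact_Icc (a := (-1 : ℝ)) (b := b)).bddAbove_image hc.continuousOn
  refine ⟨max C 0, le_max_right _ _, fun x hx => ?_⟩
  -- translation
  have tr : iteratedFDeriv ℝ i u x = iteratedFDeriv ℝ i u (x.1, 0) := by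
    have h1 : (fun z : ℝ × ℝ => u (z + (0, -x.2))) = u := by
      funext z
      rw [hu]
      simp
    have h2 := iteratedFDeriv_comp_add_right (𝕜 := ℝ) (f := u) i ((0, -x.2) : ℝ × ℝ) x
    rw [h1] at h2
    rw [h2]
    have h3 : x + ((0, -x.2) : ℝ × ℝ) = (x.1, 0) := by
      ext <;> simp
    rw [h3]
  rw [tr]
  rcases lt_or_ge x.1 (-1) with h | h
  · have h1 : u =ᶠ[𝓝 ((x.1, 0) : ℝ × ℝ)] fun _ => (0 : ℝ) := by
      have h2 : {z : ℝ × ℝ | z.1 < -1} ∈ 𝓝 ((x.1, 0) : ℝ × ℝ) :=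
        (isOpen_lt continuous_fst continuous_const).mem_nhds h
      filter_upwards [h2] with z hz
      rw [hu]
      simp only
      rw [st_zero z.1 (le_of_lt hz), mul_zero]
    have h3 := (h1.iteratedFDeriv ℝ i).eq_of_nhds
    rw [h3]
    have h4 : iteratedFDeriv ℝ i (fun _ : ℝ × ℝ => (0 : ℝ)) = 0 := iteratedFDeriv_fun_zero
    rw [h4]
    simp
  · exact (hC ⟨x.1, ⟨h, hx⟩, rfl⟩).trans (le_max_left _ _)

theorem gx_CORR1 (hLOGMAP : S_LOGMAP) (hDYN : S_DYN) (hLOGB : S_LOGB) : S_CORR1 := by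
  intro X Z hW H hH hF
  obtain ⟨lam, c, W, hlam, hc, hsm, hW0, hW1, hSm⟩ := hLOGMAP X Z hW
  obtain ⟨h, hh⟩ : ∃ h : ℝ × ℝ → ℝ,
      h = fun x => -(st x.1) * Pool.Agent.H242.GX.Odd X H x.1 (lam * Real.exp x.2) := ⟨_, rfl⟩
  have hX := hW.smX
  have hhs : ContDiff ℝ ∞ h := by
    rw [hh]
    unfold Pool.Agent.H242.GX.Odd
    have e0 : ContDiff ℝ ∞ (fun x : ℝ × ℝ => st x.1) := st_smooth.comp contDiff_fst
    have e1 : ContDiff ℝ ∞ (fun x : ℝ × ℝ => X (x.1, lam * Real.exp x.2)) :=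
      hX.comp (by fun_prop)
    have e2 : ContDiff ℝ ∞ (fun x : ℝ × ℝ => X (x.1, -(lam * Real.exp x.2))) :=
      hX.comp (by fun_prop)
    have e3 : ContDiff ℝ ∞ (fun x : ℝ × ℝ => H ((X (x.1, lam * Real.exp x.2)).1,
        (X (x.1, lam * Real.exp x.2)).2 ^ 2)) :=
      hH.comp (e1.fst.prodMk (e1.snd.pow 2))
    have e4 : ContDiff ℝ ∞ (fun x : ℝ × ℝ => H ((X (x.1, -(lam * Real.exp x.2))).1,
        (X (x.1, -(lam * Real.exp x.2))).2 ^ 2)) :=
      hH.comp (e2.fst.prodMk (e2.snd.pow 2))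
    exact e0.neg.mul (e3.sub e4)
  have hh0 : ∀ x : ℝ × ℝ, x.1 ≤ -1 → h x = 0 := by
    intro x hx
    rw [hh]
    simp only
    rw [st_zero x.1 hx]
    ring
  have hhb : ∀ (i N : ℕ), ∃ C : ℝ, ∀ x : ℝ × ℝ, x.1 ≤ 2 * Real.pi + 1 → x.2 ≤ 0 →
      ‖iteratedFDeriv ℝ i h x‖ ≤ C * Real.exp (N * x.2) := by
    intro i N
    obtain ⟨E, hE, hEp, hEN⟩ := hF N
    have e1 : h = fun x : ℝ × ℝ => (-(lam ^ N) * st x.1) *
        (Real.exp x.2 ^ N * E (x.1, lam * Real.exp x.2)) := by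
      rw [hh]
      funext x
      rw [hEN]
      ring
    have v1 := fun j => st_bound (-(lam ^ N)) (2 * Real.pi + 1) j
    choose A hA0 hA using v1
    have v2 := hLOGB E lam N hlam hE hEp
    choose B hB using v2
    have su : ContDiff ℝ ∞ (fun x : ℝ × ℝ => -(lam ^ N) * st x.1) :=
      contDiff_const.mul (st_smooth.comp contDiff_fst)
    have sv : ContDiff ℝ ∞ (fun x : ℝ × ℝ => Real.exp x.2 ^ N * E (x.1, lam * Real.exp x.2)) := by
      have e2 : ContDiff ℝ ∞ (fun x : ℝ × ℝ => E (x.1, lam * Real.exp x.2)) :=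
        hE.comp (by fun_prop)
      have e3 : ContDiff ℝ ∞ (fun x : ℝ × ℝ => Real.exp x.2 ^ N) := by fun_prop
      exact e3.mul e2
    refine ⟨∑ j ∈ Finset.range (i + 1), (i.choose j : ℝ) * A j * B (i - j), fun x hx1 hx2 => ?_⟩
    rw [e1]
    refine (norm_iteratedFDeriv_mul_le su sv x (n := i) (by exact_mod_cast le_top)).trans ?_
    rw [Finset.sum_mul]
    refine Finset.sum_le_sum fun j _ => ?_
    have p1 := hA j x hx1
    have p2 := hB (i - j) x hx2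
    calc (i.choose j : ℝ) * ‖iteratedFDeriv ℝ j (fun x : ℝ × ℝ => -(lam ^ N) * st x.1) x‖ *
          ‖iteratedFDeriv ℝ (i - j) (fun x : ℝ × ℝ => Real.exp x.2 ^ N *
            E (x.1, lam * Real.exp x.2)) x‖
        ≤ (i.choose j : ℝ) * A j * (B (i - j) * Real.exp (N * x.2)) := by
          refine mul_le_mul ?_ p2 (norm_nonneg _) (mul_nonneg (by positivity) (hA0 j))
          exact mul_le_mul_of_nonneg_left p1 (by positivity)
      _ = _ := by ring
  have hpi := Real.pi_pos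
  obtain ⟨s₁, g, hs, hg, hgW, hgb⟩ := hDYN W (-1) (2 * Real.pi + 1) c hsm (by linarith) hc hW0 hW1
    h hhs hh0 hhb
  refine ⟨lam, s₁, g, hlam, hs, hg, hgb, fun x hx1 hx2 hx3 => ?_⟩
  have e1 := hSm x (by linarith)
  have e2 : ((Sm X Z (x.1, lam * Real.exp x.2)).1,
      Real.log ((Sm X Z (x.1, lam * Real.exp x.2)).2 / lam)) = x + W x := by
    rw [e1]
    simp only
    rw [mul_div_cancel_left₀ _ hlam.ne', Real.log_exp]
    rfl
  rw [e2, hgW x hx2 hx3, hh]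
  simp only
  rw [st_one x.1 hx1.le]
  ring

end Pool.Agent.H725.GX
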