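import Pool.Agent.H242.GX.Stm2

/-!
# GX-MWEB: mirror symmetry of the web
-/

set_option autoImplicit false

open Set Filter Topology
open scoped ContDiff

namespace Pool.Agent.H725.GX

open Pool.Agent.H242.GX

theorem mw_deriv (p : ℝ → ℝ) (h : ∀ α, p (-α) = p α) (α : ℝ) : deriv p (-α) = -deriv p α := by
  have h1 : (fun x => p (-x)) = p := funext h
  have h2 := deriv_comp_neg p α
  rw [h1] at h2
  rw [h2, neg_neg]

theorem mw_psi (p : ℝ → ℝ) (h : ∀ α, p (-α) = p α) (φ y : ℝ) :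
    (Psi p (-φ) y).re = -(Psi p φ y).re ∧ (Psi p (-φ) y).im = (Psi p φ y).im := by
  unfold Psi gam nu Pool.Agent.H242.GX.e
  rw [h, mw_deriv p h, Real.sin_neg, Real.cos_neg]
  constructor
  · simp only [Complex.add_re, Complex.smul_re, smul_eq_mul]
    ring
  · simp only [Complex.add_im, Complex.smul_im, smul_eq_mul]
    ring

theorem mw_tan (p : ℝ → ℝ) (h : ∀ α, p (-α) = p α) (θ t : ℝ) :
    (gam p (-θ) + (-t) • Pool.Agent.H242.GX.e (-θ)).re =
      -(gam p θ + t • Pool.Agent.H242.GX.e θ).re ∧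
    (gam p (-θ) + (-t) • Pool.Agent.H242.GX.e (-θ)).im =
      (gam p θ + t • Pool.Agent.H242.GX.e θ).im := by
  unfold gam nu Pool.Agent.H242.GX.e
  rw [h, mw_deriv p h, Real.sin_neg, Real.cos_neg]
  constructor
  · simp only [Complex.add_re, Complex.smul_re, smul_eq_mul]
    ring
  · simp only [Complex.add_im, Complex.smul_im, smul_eq_mul]
    ring

/-- a continuous function with integer values which vanishes at `0` is zero -/
theorem mw_int (f : ℝ → ℝ) (hf : Continuous f) (h : ∀ t, ∃ k : ℤ, f t = k) (h0 : f 0 = 0)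
    (t : ℝ) : f t = 0 := by
  obtain ⟨k, hk⟩ := h t
  rcases lt_trichotomy k 0 with hk0 | hk0 | hk0
  · exfalso
    have h1 : (k : ℝ) ≤ -1 := by exact_mod_cast (by omega : k ≤ -1)
    obtain ⟨s, hs⟩ := mem_range_of_exists_le_of_exists_ge (c := (-(1 / 2) : ℝ)) hf
      ⟨t, by rw [hk]; linarith⟩ ⟨0, by rw [h0]; norm_num⟩
    obtain ⟨m, hm⟩ := h s
    rw [hs] at hm
    have h2 : (2 * m : ℝ) = -1 := by linarith
    have h3 : 2 * m = -1 := by exact_mod_cast h2
    omega
  · rw [hk, hk0]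
    simp
  · exfalso
    have h1 : (1 : ℝ) ≤ k := by exact_mod_cast (by omega : 1 ≤ k)
    obtain ⟨s, hs⟩ := mem_range_of_exists_le_of_exists_ge (c := (1 / 2 : ℝ)) hf
      ⟨0, by rw [h0]; norm_num⟩ ⟨t, by rw [hk]; linarith⟩
    obtain ⟨m, hm⟩ := h s
    rw [hs] at hm
    have h2 : (2 * m : ℝ) = 1 := by linarith
    have h3 : 2 * m = 1 := by exact_mod_cast h2
    omega

theorem gx_MWEB (hPSI : S_PSI) : S_MWEB := by
  intro p X Z hT hp
  have hpi := Real.pi_pos
  obtain ⟨y₁, hy, hinj, -⟩ := hPSI p hT.supp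
  have key : ∀ θ t : ℝ, (X (θ, t)).2 ^ 2 = (X (-θ, -t)).2 ^ 2 ∧
      ∃ k : ℤ, (X (-θ, -t)).1 = -(X (θ, t)).1 + k * (2 * Real.pi) := by
    intro θ t
    refine hinj _ _ _ _ (by have := sq_nonneg (X (θ, t)).2; linarith)
      (by have := sq_nonneg (X (-θ, -t)).2; linarith) ?_
    have e1 := hT.rel θ t
    have e2 := hT.rel (-θ) (-t)
    rw [e2]
    obtain ⟨a1, a2⟩ := mw_psi p hp (X (θ, t)).1 ((X (θ, t)).2 ^ 2)
    obtain ⟨b1, b2⟩ := mw_tan p hp θ t
    rw [e1] at a1 a2
    apply Complex.ext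
    · rw [a1, b1]
    · rw [a2, b2]
  have hc : ∀ θ : ℝ, Continuous fun t : ℝ =>
      ((X (-θ, -t)).1 + (X (θ, t)).1) / (2 * Real.pi) := by
    intro θ
    have h1 : Continuous X := hT.smX.continuous
    have h2 : Continuous fun t : ℝ => (X (-θ, -t)).1 :=
      continuous_fst.comp (h1.comp (by fun_prop))
    have h3 : Continuous fun t : ℝ => (X (θ, t)).1 :=
      continuous_fst.comp (h1.comp (by fun_prop))
    exact (h2.add h3).div_const _
  refine { toWeb := hT.toWeb, mir := fun θ t => ?_ }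
  have f1 : (X (-θ, -t)).1 = -(X (θ, t)).1 := by
    have h1 := mw_int _ (hc θ) (fun s => by
      obtain ⟨k, hk⟩ := (key θ s).2
      refine ⟨k, ?_⟩
      rw [hk]
      field_simp
      ring) (by
      rw [neg_zero, hT.axis, hT.axis]
      simp) t
    rw [div_eq_zero_iff] at h1
    rcases h1 with h1 | h1
    · linarith
    · exfalso
      linarith
  have f2 : (X (-θ, -t)).2 = -(X (θ, t)).2 := by
    have h1 := (key θ t).1
    rcases lt_trichotomy t 0 with ht | ht | ht
    · have h2 := hT.sgn' θ t ht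
      have h3 := hT.sgn (-θ) (-t) (by linarith)
      nlinarith
    · rw [ht, neg_zero, hT.axis, hT.axis]
      simp
    · have h2 := hT.sgn θ t ht
      have h3 := hT.sgn' (-θ) (-t) (by linarith)
      nlinarith
  exact Prod.ext f1 f2

end Pool.Agent.H725.GX
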