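import Pool.Agent.H242.GX.Stm5

/-!
# A smooth function with `g'' ~ l^6 t^6` is linear plus `x^8 h (x)`
-/

set_option autoImplicit false

open Set Filter Topology
open scoped ContDiff

namespace Pool.Agent.H725.GX

open Pool.Agent.H242.GX

theorem had1 (hHAD : S_HAD) {G : ℝ → ℝ} (hG : ContDiff ℝ ∞ G) (h0 : G 0 = 0) :
    ∃ H : ℝ → ℝ, ContDiff ℝ ∞ H ∧ ∀ x, G x = x * H x := by
  obtain ⟨v, hv, h1⟩ := hHAD (fun z : ℝ × ℝ => G z.2) (hG.comp contDiff_snd) (fun _ => h0)
  exact ⟨fun t => v (0, t), hv.comp (contDiff_const.prodMk contDiff_id), fun x => h1 0 x⟩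

theorem gx_W6 (hHAD : S_HAD) : S_W6 := by
  intro g y y₁ κ κ₁ δ M l hY hg hgy hl hlim
  have hev : ∀ᶠ t : ℝ in 𝓝[>] 0, 0 < t ∧ t < δ := by
    filter_upwards [Ioo_mem_nhdsGT hY.pos] with t ht using ht
  have hid : Tendsto (fun t : ℝ => t) (𝓝[>] 0) (𝓝 0) := tendsto_id.mono_left nhdsWithin_le_nhds
  -- `y t / t → l`
  have h1 : Tendsto (fun t => y t / t) (𝓝[>] 0) (𝓝 l) := by
    refine HasDerivAt.lhopital_zero_nhdsGT (f' := y₁) (g' := fun _ => 1) ?_ ?_ ?_ hY.lim hid ?_
    · filter_upwards [hev] with t ht using hY.dy t ht.1 ht.2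
    · filter_upwards with t using hasDerivAt_id t
    · filter_upwards with t using one_ne_zero
    · simpa using hlim
  have hdg : ContDiff ℝ ∞ (deriv g) := (contDiff_infty_iff_deriv.1 hg).2
  have hD1 : ∀ t, HasDerivAt g (deriv g t) t := fun t =>
    ((contDiff_infty_iff_deriv.1 hg).1 t).hasDerivAt
  have hD2 : ∀ t, HasDerivAt (deriv g) (deriv (deriv g) t) t := fun t =>
    ((contDiff_infty_iff_deriv.1 hdg).1 t).hasDerivAt
  -- `g'' t / t ^ 6 → l ^ 6`
  have h2 : Tendsto (fun t => deriv (deriv g) t / t ^ 6) (𝓝[>] 0) (𝓝 (l ^ 6)) := by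
    refine (h1.pow 6).congr' ?_
    filter_upwards [hev] with t ht
    rw [hgy t ht.1 ht.2, div_pow]
  have hne : ∀ᶠ t : ℝ in 𝓝[>] 0, t ≠ 0 := by
    filter_upwards [hev] with t ht using ht.1.ne'
  have hpow : ∀ n : ℕ, n ≠ 0 → Tendsto (fun t : ℝ => t ^ n) (𝓝[>] 0) (𝓝 0) := by
    intro n hn
    have := hid.pow n
    rwa [zero_pow hn] at this
  have h3 : Tendsto (fun t => (deriv g t - deriv g 0) / t ^ 7) (𝓝[>] 0) (𝓝 (l ^ 6 / 7)) := by
    refine HasDerivAt.lhopital_zero_nhdsGT (f' := deriv (deriv g)) (g' := fun t => 7 * t ^ 6)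
      ?_ ?_ ?_ ?_ (hpow 7 (by norm_num)) ?_
    · filter_upwards with t using (hD2 t).sub_const _
    · filter_upwards with t
      have := hasDerivAt_pow 7 t
      simpa using this
    · filter_upwards [hne] with t ht
      positivity
    · have : Tendsto (fun t => deriv g t - deriv g 0) (𝓝[>] 0) (𝓝 (deriv g 0 - deriv g 0)) :=
        ((hD2 0).continuousAt.tendsto.mono_left nhdsWithin_le_nhds).sub_const _
      rwa [sub_self] at this
    · refine (h2.div_const 7).congr fun t => ?_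
      rw [div_div, mul_comm]
  set G₀ : ℝ → ℝ := fun x => g x - g 0 - deriv g 0 * x with hG₀
  have hG₀s : ContDiff ℝ ∞ G₀ := (hg.sub contDiff_const).sub (contDiff_const.mul contDiff_id)
  have h4 : Tendsto (fun t => G₀ t / t ^ 8) (𝓝[>] 0) (𝓝 (l ^ 6 / 7 / 8)) := by
    refine HasDerivAt.lhopital_zero_nhdsGT (f' := fun t => deriv g t - deriv g 0)
      (g' := fun t => 8 * t ^ 7) ?_ ?_ ?_ ?_ (hpow 8 (by norm_num)) ?_
    · filter_upwards with t
      have h := ((hD1 t).sub_const (g 0)).sub ((hasDerivAt_id t).const_mul (deriv g 0))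
      rw [mul_one] at h
      exact h
    · filter_upwards with t
      have := hasDerivAt_pow 8 t
      simpa using this
    · filter_upwards [hne] with t ht
      positivity
    · have h : Tendsto G₀ (𝓝[>] 0) (𝓝 (G₀ 0)) :=
        hG₀s.continuous.continuousAt.tendsto.mono_left nhdsWithin_le_nhds
      have e : G₀ 0 = 0 := by simp [hG₀]
      rwa [e] at h
    · refine (h3.div_const 8).congr fun t => ?_
      rw [div_div, mul_comm (t ^ 7)]
  have key : ∀ k : ℕ, k ≤ 8 → ∃ G : ℝ → ℝ, ContDiff ℝ ∞ G ∧ ∀ x, G₀ x = x ^ k * G x := by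
    intro k
    induction k with
    | zero => intro _; exact ⟨G₀, hG₀s, fun x => by simp⟩
    | succ k ih =>
      intro hk
      obtain ⟨G, hG, hGx⟩ := ih (by omega)
      have hlim0 : Tendsto G (𝓝[>] 0) (𝓝 0) := by
        have h5 := h4.mul (hpow (8 - k) (by omega))
        rw [mul_zero] at h5
        refine h5.congr' ?_
        filter_upwards [hne] with t ht
        have e : t ^ 8 = t ^ k * t ^ (8 - k) := by
          rw [← pow_add]
          congr 1
          omega
        rw [hGx t, e]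
        field_simp
      have hG0 : G 0 = 0 :=
        tendsto_nhds_unique (hG.continuous.continuousAt.tendsto.mono_left nhdsWithin_le_nhds) hlim0
      obtain ⟨H, hH, hHx⟩ := had1 hHAD hG hG0
      refine ⟨H, hH, fun x => ?_⟩
      rw [hGx x, hHx x, pow_succ]
      ring
  obtain ⟨h, hh, hx⟩ := key 8 le_rfl
  refine ⟨h, hh, ?_, fun x => ?_⟩
  · have h6 : Tendsto h (𝓝[>] 0) (𝓝 (l ^ 6 / 7 / 8)) := by
      refine h4.congr' ?_
      filter_upwards [hne] with t ht
      rw [hx t]
      field_simp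
    have h7 : h 0 = l ^ 6 / 7 / 8 :=
      tendsto_nhds_unique (hh.continuous.continuousAt.tendsto.mono_left nhdsWithin_le_nhds) h6
    rw [h7]
    positivity
  · have := hx x
    rw [hG₀] at this
    linarith

end Pool.Agent.H725.GX
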